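import Pool.Agent.Lib.P901b45k.Main

/-!
Slices given by their points, for Frank's question on complementary vertices of integer
2-polymatroids (MP_901b45_co).
-/

set_option autoImplicit false

namespace Pool.Agent.P901b45k

open Finset Pool.Agent.P901b45e Pool.Agent.P901b45d

variable {α : Type*} [DecidableEq α] {G : Finset α} {h : Finset α → ℤ} {x : α → ℤ}

/-- the exchange that lowers `p` and raises `q` is possible -/
def Arc (G : Finset α) (h : Finset α → ℤ) (x : α → ℤ) (p q : α) : Prop :=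
  ∀ D ⊆ G, -∑ e ∈ D, x e = h D → p ∈ D → q ∈ D

/-- a set that is not tight is left by an exchange -/
theorem exists_arc (hh : Sub G h) (hG : h G = 0) (hneg : ∀ D ⊆ G, -∑ e ∈ D, x e ≤ h D)
    (htot : ∑ e ∈ G, x e = 0) {W : Finset α} (hW : W ⊆ G) (hnt : -∑ e ∈ W, x e ≠ h W) :
    ∃ p ∈ W, ∃ q ∈ G, q ∉ W ∧ Arc G h x p q := by
  by_contra hcon
  push Not at hcon
  have key : ∀ F ⊆ W, ∃ T ⊆ W, F ⊆ T ∧ -∑ e ∈ T, x e = h T := by
    intro F
    induction F using Finset.induction_on with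
    | empty =>
      intro _
      exact ⟨∅, empty_subset _, Subset.refl _, by rw [sum_empty, hh.empty, neg_zero]⟩
    | insert c F _ ih =>
      intro hF
      obtain ⟨T, hT, hFT, hTt⟩ := ih ((subset_insert _ _).trans hF)
      have hcW : c ∈ W := hF (mem_insert_self _ _)
      obtain ⟨T', hT', hcT', hT't, hmin⟩ := exists_least hh hG hneg htot (hW hcW)
      have hT'W : T' ⊆ W := by
        intro q hq
        by_contra hqW
        exact hcon c hcW q (hT' hq) hqW (fun D hD h1 h2 => hmin D hD h2 h1 hq)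
      refine ⟨T ∪ T', union_subset hT hT'W, ?_, (lat hh hneg (hT.trans hW) hT' hTt hT't).1⟩
      exact insert_subset (mem_union_right _ hcT') (hFT.trans subset_union_left)
  obtain ⟨T, hT, hWT, hTt⟩ := key W (Subset.refl _)
  have h1 : T = W := Subset.antisymm hT hWT
  exact hnt (h1 ▸ hTt)

/-- a slice of `-B(h)` whose points lie in `B(h)` satisfies the inequalities of `Cut` -/
theorem cut_of_points (hh : Sub G h) (hG : h G = 0) {A : Finset α} (hA : A ⊆ G) {c : ℤ}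
    (hc : 1 ≤ c) (hne : ∃ u, Pt G h A c u)
    (hall : ∀ u, Pt G h A c u → ∀ S ⊆ G, ∑ e ∈ S, u e ≤ h S) : Cut G h A c := by
  refine ⟨hA, hc, ?_, ?_⟩
  · obtain ⟨u, h1, h2, h3⟩ := hne
    have h4 := h1 (G \ A) sdiff_subset
    have h5 := Finset.sum_sdiff hA (f := u)
    linarith
  intro S hS
  obtain ⟨m, ⟨u, hu, hum⟩, hmax⟩ := Int.exists_greatest_of_bdd
    (P := fun z => ∃ u, Pt G h A c u ∧ ∑ e ∈ S, u e = z)
    ⟨h S, fun z hz => by obtain ⟨u, h1, h2⟩ := hz; rw [← h2]; exact hall u h1 S hS⟩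
    (by obtain ⟨u, h1⟩ := hne; exact ⟨_, u, h1, rfl⟩)
  refine le_trans ?_ (hall u hu S hS)
  obtain ⟨hneg, htot, huA⟩ := hu
  by_contra hlt
  push Not at hlt
  obtain ⟨h0, h12⟩ := lt_min_iff.1 hlt
  obtain ⟨h1, h2⟩ := lt_min_iff.1 h12
  -- one exchange
  have F1 : ∀ p ∈ G, ∀ q ∈ G, Arc G h u p q → (p ∈ A ↔ q ∈ A) → q ∈ S → p ∈ S := by
    intro p hp q hq ha hpq hqS
    by_contra hpS
    have h3 := hmax (∑ e ∈ S, (u e + root q p e)) ⟨fun e => u e + root q p e,
      ⟨move1 hneg ha, ?_, ?_⟩, rfl⟩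
    · rw [sum_add_distrib, sum_root, if_pos hqS, if_neg hpS] at h3
      omega
    · rw [sum_add_distrib, sum_root, if_pos hq, if_pos hp, htot]; norm_num
    · rw [sum_add_distrib, sum_root, huA]
      by_cases h4 : p ∈ A
      · rw [if_pos (hpq.1 h4), if_pos h4]; norm_num
      · rw [if_neg (fun h5 => h4 (hpq.2 h5)), if_neg h4]; norm_num
  -- two exchanges across the slice
  have F2 : ∀ p ∈ G, ∀ q ∈ G, ∀ j ∈ G, ∀ i ∈ G, Arc G h u p q → Arc G h u j i →
      p ∉ A → q ∈ A → j ∈ A → i ∉ A →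
      (if q ∈ S then (1 : ℤ) else 0) - (if p ∈ S then 1 else 0) +
        ((if i ∈ S then 1 else 0) - (if j ∈ S then 1 else 0)) ≤ 0 := by
    intro p hp q hq j hj i hi ha hb hpA hqA hjA hiA
    by_cases hw : ∃ T ⊆ G, -∑ e ∈ T, u e = h T ∧ ((p ∈ T ∧ i ∉ T) ∨ (j ∈ T ∧ q ∉ T))
    · obtain ⟨T, hT, hTt, hw⟩ := hw
      have h3 := hmax (∑ e ∈ S, (u e + root q p e + root i j e))
        ⟨fun e => u e + root q p e + root i j e,
          ⟨move2 hh hneg ha hb hT hTt hw, ?_, ?_⟩, rfl⟩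
      · rw [sum_add_distrib, sum_add_distrib, sum_root, sum_root] at h3
        omega
      · rw [sum_add_distrib, sum_add_distrib, sum_root, sum_root, if_pos hq, if_pos hp,
          if_pos hi, if_pos hj, htot]
        norm_num
      · rw [sum_add_distrib, sum_add_distrib, sum_root, sum_root, if_pos hqA, if_neg hpA,
          if_neg hiA, if_pos hjA, huA]
        ring
    · push Not at hw
      have hpi : Arc G h u p i := fun D hD h3 h4 => (hw D hD h3).1 h4
      have hjq : Arc G h u j q := fun D hD h3 h4 => (hw D hD h3).2 h4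
      have h3 := F1 p hp i hi hpi (iff_of_false hpA hiA)
      have h4 := F1 j hj q hq hjq (iff_of_true hjA hqA)
      by_cases e1 : q ∈ S <;> by_cases e2 : p ∈ S <;> by_cases e3 : i ∈ S <;>
        by_cases e4 : j ∈ S <;> simp_all
  have hcS := Finset.sum_sdiff hS (f := u)
  obtain ⟨p0, hp0, q0, hq0, hq0S, ha0⟩ := exists_arc hh hG hneg htot (W := G \ S) sdiff_subset
    (fun h3 => by rw [← h3] at h0; linarith)
  obtain ⟨hp0, hp0S⟩ := mem_sdiff.1 hp0
  have hq0S : q0 ∈ S := by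
    by_contra h3
    exact hq0S (mem_sdiff.2 ⟨hq0, h3⟩)
  have e1 := Finset.sum_inter_add_sum_sdiff S A u
  have e2 := Finset.sum_inter_add_sum_sdiff A S u
  rw [inter_comm A S] at e2
  have e3 : ∑ e ∈ S ∪ A, u e + ∑ e ∈ S ∩ A, u e = ∑ e ∈ S, u e + ∑ e ∈ A, u e :=
    Finset.sum_union_inter
  have e4 := Finset.sum_sdiff (sdiff_subset.trans hS : S \ A ⊆ G) (f := u)
  have e5 := Finset.sum_sdiff (inter_subset_left.trans hS : S ∩ A ⊆ G) (f := u)
  have e6 := Finset.sum_sdiff (union_subset hS hA : S ∪ A ⊆ G) (f := u)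
  by_cases hp0A : p0 ∈ A
  · by_cases hq0A : q0 ∈ A
    · exact hp0S (F1 p0 hp0 q0 hq0 ha0 (iff_of_true hp0A hq0A) hq0S)
    · -- the exchange lowers the sum over `A`
      have key : ∃ p ∈ G, ∃ q ∈ G, Arc G h u p q ∧
          ((p ∉ S ∩ A ∧ q ∈ S ∩ A) ∨ (p ∉ S ∪ A ∧ q ∈ S ∪ A)) := by
        by_cases h3 : -∑ e ∈ G \ (S ∩ A), u e = h (G \ (S ∩ A))
        · obtain ⟨p, hp, q, hq, hqS, ha⟩ := exists_arc hh hG hneg htot (W := G \ (S ∪ A))
            sdiff_subset (fun h4 => by rw [← h3, ← h4] at h1; linarith)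
          refine ⟨p, (mem_sdiff.1 hp).1, q, hq, ha, Or.inr ⟨(mem_sdiff.1 hp).2, ?_⟩⟩
          by_contra h5
          exact hqS (mem_sdiff.2 ⟨hq, h5⟩)
        · obtain ⟨p, hp, q, hq, hqS, ha⟩ := exists_arc hh hG hneg htot (W := G \ (S ∩ A))
            sdiff_subset h3
          refine ⟨p, (mem_sdiff.1 hp).1, q, hq, ha, Or.inl ⟨(mem_sdiff.1 hp).2, ?_⟩⟩
          by_contra h5
          exact hqS (mem_sdiff.2 ⟨hq, h5⟩)
      obtain ⟨p, hp, q, hq, ha, hcase⟩ := key
      have h3 := F1 p hp q hq ha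
      have h4 := F2 p hp q hq p0 hp0 q0 hq0 ha ha0
      rw [mem_inter, mem_inter, mem_union, mem_union] at hcase
      by_cases k1 : q ∈ S <;> by_cases k2 : p ∈ S <;> by_cases k3 : q ∈ A <;>
        by_cases k4 : p ∈ A <;> simp_all
  · by_cases hq0A : q0 ∈ A
    · have key : ∃ p ∈ G, ∃ q ∈ G, Arc G h u p q ∧
          ((p ∉ S \ A ∧ q ∈ S \ A) ∨ (p ∈ A \ S ∧ q ∉ A \ S)) := by
        by_cases h3 : -∑ e ∈ G \ (S \ A), u e = h (G \ (S \ A))
        · obtain ⟨p, hp, q, hq, hqS, ha⟩ := exists_arc hh hG hneg htot (W := A \ S)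
            (sdiff_subset.trans hA) (fun h4 => by rw [← h3, ← h4] at h2; linarith)
          exact ⟨p, hA (sdiff_subset hp), q, hq, ha, Or.inr ⟨hp, hqS⟩⟩
        · obtain ⟨p, hp, q, hq, hqS, ha⟩ := exists_arc hh hG hneg htot (W := G \ (S \ A))
            sdiff_subset h3
          refine ⟨p, (mem_sdiff.1 hp).1, q, hq, ha, Or.inl ⟨(mem_sdiff.1 hp).2, ?_⟩⟩
          by_contra h5
          exact hqS (mem_sdiff.2 ⟨hq, h5⟩)
      obtain ⟨p, hp, q, hq, ha, hcase⟩ := key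
      have h3 := F1 p hp q hq ha
      have h4 := F2 p0 hp0 q0 hq0 p hp q hq ha0 ha
      rw [mem_sdiff, mem_sdiff, mem_sdiff, mem_sdiff] at hcase
      by_cases k1 : q ∈ S <;> by_cases k2 : p ∈ S <;> by_cases k3 : q ∈ A <;>
        by_cases k4 : p ∈ A <;> simp_all
    · exact hp0S (F1 p0 hp0 q0 hq0 ha0 (iff_of_false hp0A hq0A) hq0S)

end Pool.Agent.P901b45k
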