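import Pool.Agent.Lib.P901b45d.Seven

/-!
The cut theorem for Frank's question on complementary vertices of integer 2-polymatroids
(MP_901b45_co).
-/

set_option autoImplicit false

namespace Pool.Agent.P901b45k

open Finset Pool.Agent.P901b45e Pool.Agent.P901b45d

variable {α : Type*} [DecidableEq α] {G : Finset α} {h : Finset α → ℤ} {x : α → ℤ}

/-- the slice of `-B(h)` by `x(A) = c` is nonempty and contained in `B(h)` -/
structure Cut (G : Finset α) (h : Finset α → ℤ) (A : Finset α) (c : ℤ) : Prop where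
  sub : A ⊆ G
  pos : 1 ≤ c
  le : c ≤ h (G \ A)
  all : ∀ S ⊆ G, min (h (G \ S)) (min (h (G \ (S ∩ A)) + h (G \ (S ∪ A)) - c)
    (h (G \ (S \ A)) + h (A \ S) + c)) ≤ h S

/-- points of `-B(h)` on the hyperplane of the slice lie in `B(h)` -/
theorem Cut.mem {A : Finset α} {c : ℤ} (hh : Sub G h) (hc : Cut G h A c)
    (hneg : ∀ D ⊆ G, -∑ e ∈ D, x e ≤ h D) (htot : ∑ e ∈ G, x e = 0)
    (hA : ∑ e ∈ A, x e = c) : V G h x := by
  have hcompl : ∀ D ⊆ G, ∑ e ∈ D, x e ≤ h (G \ D) := by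
    intro D hD
    have h1 := hneg (G \ D) sdiff_subset
    have h2 := Finset.sum_sdiff hD (f := x)
    linarith
  have hle : ∀ S ⊆ G, ∑ e ∈ S, x e ≤ h S := by
    intro S hS
    refine le_trans (le_min (hcompl S hS) (le_min ?_ ?_)) (hc.all S hS)
    · have h1 := hcompl (S ∩ A) (inter_subset_left.trans hS)
      have h2 := hcompl (S ∪ A) (union_subset hS hc.sub)
      have h4 : ∑ e ∈ S ∪ A, x e + ∑ e ∈ S ∩ A, x e = ∑ e ∈ S, x e + ∑ e ∈ A, x e :=
        Finset.sum_union_inter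
      linarith
    · have h1 := hcompl (S \ A) (sdiff_subset.trans hS)
      have h2 := hneg (A \ S) (sdiff_subset.trans hc.sub)
      have h3 := Finset.sum_inter_add_sum_sdiff S A x
      have h4 := Finset.sum_inter_add_sum_sdiff A S x
      rw [inter_comm A S] at h4
      linarith
  refine ⟨hle, hneg, ?_⟩
  intro e he
  have h1 := hle {e} (singleton_subset_iff.2 he)
  have h2 := hneg {e} (singleton_subset_iff.2 he)
  have h3 := hh.up ∅ (empty_subset _) e he
  rw [hh.empty] at h3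
  have h4 : h {e} ≤ 1 := by simpa using h3
  rw [sum_singleton] at h1 h2
  omega

/-- slack of the lower bounds is submodular -/
theorem slack (hh : Sub G h) {B D : Finset α} (hB : B ⊆ G) (hD : D ⊆ G) :
    (h (B ∪ D) + ∑ e ∈ B ∪ D, x e) + (h (B ∩ D) + ∑ e ∈ B ∩ D, x e) ≤
      (h B + ∑ e ∈ B, x e) + (h D + ∑ e ∈ D, x e) := by
  have h3 := hh.sub B hB D hD
  have h4 : ∑ e ∈ B ∪ D, x e + ∑ e ∈ B ∩ D, x e = ∑ e ∈ B, x e + ∑ e ∈ D, x e :=
    Finset.sum_union_inter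
  linarith

theorem lat (hh : Sub G h) (hneg : ∀ D ⊆ G, -∑ e ∈ D, x e ≤ h D) {B D : Finset α} (hB : B ⊆ G)
    (hD : D ⊆ G) (h1 : -∑ e ∈ B, x e = h B) (h2 : -∑ e ∈ D, x e = h D) :
    -∑ e ∈ B ∪ D, x e = h (B ∪ D) ∧ -∑ e ∈ B ∩ D, x e = h (B ∩ D) := by
  have h3 := slack (x := x) hh hB hD
  have h4 := hneg (B ∪ D) (union_subset hB hD)
  have h5 := hneg (B ∩ D) (inter_subset_left.trans hB)
  constructor <;> linarith

/-- the least tight set containing `c` -/
theorem exists_least (hh : Sub G h) (hG : h G = 0) (hneg : ∀ D ⊆ G, -∑ e ∈ D, x e ≤ h D)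
    (htot : ∑ e ∈ G, x e = 0) {c : α} (hc : c ∈ G) :
    ∃ T ⊆ G, c ∈ T ∧ -∑ e ∈ T, x e = h T ∧
      ∀ D ⊆ G, c ∈ D → -∑ e ∈ D, x e = h D → T ⊆ D := by
  classical
  have hne : (G.powerset.filter (fun T => c ∈ T ∧ -∑ e ∈ T, x e = h T)).Nonempty :=
    ⟨G, mem_filter.2 ⟨mem_powerset.2 (Subset.refl _), hc, by rw [htot, hG, neg_zero]⟩⟩
  obtain ⟨T, hT, hmin⟩ := exists_min_image _ (fun T : Finset α => T.card) hne
  obtain ⟨hT1, hT2, hT3⟩ := mem_filter.1 hT
  rw [mem_powerset] at hT1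
  refine ⟨T, hT1, hT2, hT3, ?_⟩
  intro D hD hcD hDt
  have h1 := (lat hh hneg hT1 hD hT3 hDt).2
  have h2 := hmin (T ∩ D) (mem_filter.2 ⟨mem_powerset.2 (inter_subset_left.trans hT1),
    mem_inter.2 ⟨hT2, hcD⟩, h1⟩)
  have h3 : T ∩ D = T := eq_of_subset_of_card_le inter_subset_left h2
  rw [← h3]
  exact inter_subset_right

/-- the greatest tight set avoiding `c` -/
theorem exists_greatest (hh : Sub G h) (hneg : ∀ D ⊆ G, -∑ e ∈ D, x e ≤ h D) (c : α) :
    ∃ T ⊆ G, c ∉ T ∧ -∑ e ∈ T, x e = h T ∧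
      ∀ D ⊆ G, c ∉ D → -∑ e ∈ D, x e = h D → D ⊆ T := by
  classical
  have hne : (G.powerset.filter (fun T => c ∉ T ∧ -∑ e ∈ T, x e = h T)).Nonempty :=
    ⟨∅, mem_filter.2 ⟨mem_powerset.2 (empty_subset _), notMem_empty c, by
      rw [sum_empty, hh.empty, neg_zero]⟩⟩
  obtain ⟨T, hT, hmax⟩ := exists_max_image _ (fun T : Finset α => T.card) hne
  obtain ⟨hT1, hT2, hT3⟩ := mem_filter.1 hT
  rw [mem_powerset] at hT1
  refine ⟨T, hT1, hT2, hT3, ?_⟩
  intro D hD hcD hDt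
  have h1 := (lat hh hneg hT1 hD hT3 hDt).1
  have h2 := hmax (T ∪ D) (mem_filter.2 ⟨mem_powerset.2 (union_subset hT1 hD), by
    rw [mem_union, not_or]; exact ⟨hT2, hcD⟩, h1⟩)
  have h3 : T = T ∪ D := eq_of_subset_of_card_le subset_union_left h2
  rw [h3]
  exact subset_union_right

/-- the number of zeros -/
def zeros (G : Finset α) (x : α → ℤ) : ℕ := (G.filter (fun e => x e = 0)).card

/-- replacing `x` by `x + root a b` with `x a`, `x b` zero or of the right sign -/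
theorem zeros_lt {y : α → ℤ} {Z : Finset α} (hZ : Z ⊆ G) (W : Finset α)
    (h1 : ∀ e ∈ G, e ∉ Z → y e = 0 → e ∈ W ∨ x e = 0) (h2 : ∀ e ∈ Z, x e = 0 ∧ y e ≠ 0)
    (hc : W.card < Z.card) : zeros G y < zeros G x := by
  classical
  have h3 : G.filter (fun e => y e = 0) ⊆ (G.filter (fun e => x e = 0) \ Z) ∪ W := by
    intro e he
    obtain ⟨he1, he2⟩ := mem_filter.1 he
    have hez : e ∉ Z := fun hz => (h2 e hz).2 he2
    rcases h1 e he1 hez he2 with h4 | h4
    · exact mem_union_right _ h4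
    · exact mem_union_left _ (mem_sdiff.2 ⟨mem_filter.2 ⟨he1, h4⟩, hez⟩)
  have h4 : Z ⊆ G.filter (fun e => x e = 0) := fun e he => mem_filter.2 ⟨hZ he, (h2 e he).1⟩
  have h5 := card_le_card h3
  have h6 := card_union_le (G.filter (fun e => x e = 0) \ Z) W
  have h7 := card_sdiff_of_subset h4
  have h8 := card_le_card h4
  unfold zeros
  omega

end Pool.Agent.P901b45k
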