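import Mathlib

/-!
# The good edge lemma (pivots of two up-sets of a submodular function)

`n` is submodular on the subsets of `A`, `n ∅ = 0`, `n {a} ≤ 1`; `V1`, `V2` are up-sets inside `A`
without the empty set, with `A`, such that (P1) a step into the family does not change `n`,
(P2) for modular pairs: both in ⇒ intersection in; both out ⇒ union out. Then there is a good edge
(`S` in none, `insert a S` in both) or there are disjoint members `U` of `V1`, `V` of `V2`.
-/

namespace Pool.Agent.P901b45k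

open Finset

variable {α : Type*} [DecidableEq α]

/-- Up-set inside `A` with the pivot conditions (P1), (P2). -/
structure PivotFam (A : Finset α) (n : Finset α → ℤ) (V : Finset α → Prop) : Prop where
  up : ∀ S T, S ⊆ T → T ⊆ A → V S → V T
  empty : ¬ V ∅
  top : V A
  p1 : ∀ S a, S ⊆ A → a ∈ A → ¬ V S → V (insert a S) → n (insert a S) = n S
  inter : ∀ X Y, X ⊆ A → Y ⊆ A → n (X ∪ Y) + n (X ∩ Y) = n X + n Y → V X → V Y → V (X ∩ Y)
  union : ∀ X Y, X ⊆ A → Y ⊆ A → n (X ∪ Y) + n (X ∩ Y) = n X + n Y → ¬ V X → ¬ V Y → ¬ V (X ∪ Y)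

omit [DecidableEq α] in
theorem exists_min_sub (P : Finset α → Prop) (W : Finset α) (h : P W) :
    ∃ U, U ⊆ W ∧ P U ∧ ∀ T, T ⊂ U → ¬ P T := by
  induction W using Finset.strongInduction with
  | H W ih =>
    by_cases hm : ∃ T, T ⊂ W ∧ P T
    · obtain ⟨T, hT, hP⟩ := hm
      obtain ⟨U, hU, h1, h2⟩ := ih T hT hP
      exact ⟨U, hU.trans hT.subset, h1, h2⟩
    · exact ⟨W, Subset.refl _, h, fun T hT hP => hm ⟨T, hT, hP⟩⟩

section
variable {A : Finset α} {n : Finset α → ℤ} (h0 : n ∅ = 0) (h1 : ∀ a ∈ A, n {a} ≤ 1)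
  (hsub : ∀ X Y, X ⊆ A → Y ⊆ A → n (X ∪ Y) + n (X ∩ Y) ≤ n X + n Y)
include h0 h1 hsub

theorem step_le (Y : Finset α) (hY : Y ⊆ A) (b : α) (hb : b ∈ A) (hbY : b ∉ Y) :
    n (insert b Y) ≤ n Y + 1 := by
  have h := hsub Y {b} hY (by simpa using hb)
  have e1 : Y ∪ {b} = insert b Y := by rw [union_comm, ← insert_eq]
  have e2 : Y ∩ {b} = ∅ := by
    ext z; simp only [mem_inter, mem_singleton, notMem_empty, iff_false, not_and]
    rintro hz rfl; exact hbY hz
  rw [e1, e2, h0] at h
  have := h1 b hb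
  linarith

theorem grow_le (X W : Finset α) (hXW : X ⊆ W) (hW : W ⊆ A) :
    n W + X.card ≤ n X + W.card := by
  obtain ⟨D, hD⟩ : ∃ D, D = W \ X := ⟨_, rfl⟩
  induction D using Finset.induction_on generalizing W with
  | empty =>
    have : W = X := by
      apply Subset.antisymm _ hXW
      intro z hz
      by_contra hzX
      have : z ∈ W \ X := by simp [hz, hzX]
      rw [← hD] at this
      exact absurd this (notMem_empty _)
    rw [this]
  | insert b D hb ih =>
    have hbW : b ∈ W \ X := by rw [← hD]; exact mem_insert_self _ _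
    rw [mem_sdiff] at hbW
    have hX' : X ⊆ W.erase b := by
      intro z hz
      rw [mem_erase]
      exact ⟨fun e => hbW.2 (e ▸ hz), hXW hz⟩
    have hD' : D = W.erase b \ X := by
      ext z
      have := congrArg (fun T => z ∈ T) hD
      simp only [mem_insert, mem_sdiff, eq_iff_iff] at this
      simp only [mem_sdiff, mem_erase]
      constructor
      · intro hz
        have h2 := this.1 (Or.inr hz)
        exact ⟨⟨fun e => hb (e ▸ hz), h2.1⟩, h2.2⟩
      · rintro ⟨⟨hz1, hz2⟩, hz3⟩
        rcases this.2 ⟨hz2, hz3⟩ with e | hz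
        · exact absurd e hz1
        · exact hz
    have := ih (W.erase b) hX' ((erase_subset _ _).trans hW) hD'
    have h2 := step_le h0 h1 hsub (W.erase b) ((erase_subset _ _).trans hW) b (hW hbW.1)
      (notMem_erase _ _)
    rw [insert_erase hbW.1] at h2
    have h3 : ((W.erase b).card : ℤ) = W.card - 1 := by
      rw [card_erase_of_mem hbW.1]
      have : 0 < W.card := card_pos.2 ⟨b, hbW.1⟩
      omega
    linarith

/-- Over a base `B0`, a set `W` all whose deletions outside `B0` leave the family is a circuit. -/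
theorem ext_circuit {V : Finset α → Prop} (hV : PivotFam A n V) (B0 W : Finset α) (hW : W ⊆ A)
    (hVW : V W) (hdel : ∀ b ∈ W, b ∉ B0 → ¬ V (W.erase b)) :
    ∀ Y, B0 ⊆ Y → Y ⊆ W → Y ≠ W → n Y + B0.card = n B0 + Y.card := by
  have hP1 : ∀ b ∈ W, b ∉ B0 → n W = n (W.erase b) := by
    intro b hb hb0
    have := hV.p1 (W.erase b) b ((erase_subset _ _).trans hW) (hW hb) (hdel b hb hb0)
      (by rw [insert_erase hb]; exact hVW)
    rwa [insert_erase hb] at this
  intro Y
  induction Y using Finset.strongInduction with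
  | H Y ih =>
    intro hBY hYW hne
    by_cases hB : Y = B0
    · subst hB; ring
    · obtain ⟨b1, hb1, hb10⟩ : ∃ b, b ∈ Y ∧ b ∉ B0 := by
        by_contra hcon
        push Not at hcon
        exact hB (Subset.antisymm hcon hBY)
      obtain ⟨b, hb, hbY⟩ : ∃ b, b ∈ W ∧ b ∉ Y := by
        by_contra hcon
        push Not at hcon
        exact hne (Subset.antisymm hYW hcon)
      have hbb1 : b ≠ b1 := fun e => hbY (e ▸ hb1)
      have hY'Y : Y.erase b1 ⊂ Y := erase_ssubset hb1
      have hBY' : B0 ⊆ Y.erase b1 := fun z hz => mem_erase.2 ⟨fun e => hb10 (e ▸ hz), hBY hz⟩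
      have hIH := ih (Y.erase b1) hY'Y hBY' (hY'Y.subset.trans hYW)
        (fun e => by
          have : b1 ∈ Y.erase b1 := by rw [e]; exact hYW hb1
          exact notMem_erase _ _ this)
      -- the pair W - b, W - b1 is not modular
      have hb0 : b ∉ B0 := fun e => hbY (hBY e)
      have hu : W.erase b ∪ W.erase b1 = W := by
        ext z; simp only [mem_union, mem_erase]
        constructor
        · rintro (h | h) <;> exact h.2
        · intro hz
          by_cases hzb : z = b
          · right; exact ⟨fun e => hbb1 (hzb ▸ e), hz⟩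
          · left; exact ⟨hzb, hz⟩
      have hnm : ¬ (n (W.erase b ∪ W.erase b1) + n (W.erase b ∩ W.erase b1) =
          n (W.erase b) + n (W.erase b1)) := by
        intro hmod
        apply hV.union _ _ ((erase_subset _ _).trans hW) ((erase_subset _ _).trans hW) hmod
          (hdel b hb hb0) (hdel b1 (hYW hb1) hb10)
        rw [hu]; exact hVW
      have hle := hsub (W.erase b) (W.erase b1) ((erase_subset _ _).trans hW)
        ((erase_subset _ _).trans hW)
      have hlt : n (W.erase b ∪ W.erase b1) + n (W.erase b ∩ W.erase b1) <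
          n (W.erase b) + n (W.erase b1) := lt_of_le_of_ne hle hnm
      rw [hu, ← hP1 b hb hb0, ← hP1 b1 (hYW hb1) hb10] at hlt
      -- submodularity: marginal of b1 over Y - b1 is at least the one over W - b - b1
      have hsm := hsub Y (W.erase b ∩ W.erase b1) (hYW.trans hW)
        (inter_subset_left.trans ((erase_subset _ _).trans hW))
      have e1 : Y ∪ (W.erase b ∩ W.erase b1) = W.erase b := by
        ext z; simp only [mem_union, mem_inter, mem_erase]
        constructor
        · rintro (h | h)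
          · exact ⟨fun e => hbY (e ▸ h), hYW h⟩
          · exact h.1
        · intro hz
          by_cases hzb : z = b1
          · left; rw [hzb]; exact hb1
          · right; exact ⟨hz, hzb, hz.2⟩
      have e2 : Y ∩ (W.erase b ∩ W.erase b1) = Y.erase b1 := by
        ext z; simp only [mem_inter, mem_erase]
        constructor
        · rintro ⟨h, _, h2⟩; exact ⟨h2.1, h⟩
        · rintro ⟨h, h2⟩
          exact ⟨h2, ⟨fun e => hbY (e ▸ h2), hYW h2⟩, h, hYW h2⟩
      rw [e1, e2, ← hP1 b hb hb0] at hsm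
      have hst := step_le h0 h1 hsub (Y.erase b1) (hY'Y.subset.trans (hYW.trans hW)) b1
        (hW (hYW hb1)) (notMem_erase _ _)
      rw [insert_erase hb1] at hst
      have hc : ((Y.erase b1).card : ℤ) = Y.card - 1 := by
        rw [card_erase_of_mem hb1]
        have : 0 < Y.card := card_pos.2 ⟨b1, hb1⟩
        omega
      have : n Y = n (Y.erase b1) + 1 := by
        apply le_antisymm hst
        have : n W + 1 ≤ n W + n W - n (W.erase b ∩ W.erase b1) := by omega
        linarith
      rw [this]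
      rw [hc] at hIH
      linarith

/-- A minimal member of a pivot family is a circuit. -/
theorem min_circuit {V : Finset α → Prop} (hV : PivotFam A n V) (U : Finset α) (hU : U ⊆ A)
    (hVU : V U) (hmin : ∀ T, T ⊂ U → ¬ V T) :
    (∀ Y, Y ⊆ U → Y ≠ U → n Y = Y.card) ∧ n U = U.card - 1 := by
  have hc := ext_circuit h0 h1 hsub hV ∅ U hU hVU
    (fun b hb _ => hmin _ (erase_ssubset hb))
  have hA : ∀ Y, Y ⊆ U → Y ≠ U → n Y = Y.card := by
    intro Y hY hne
    have := hc Y (empty_subset _) hY hne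
    simp only [card_empty, Nat.cast_zero, add_zero, h0, zero_add] at this
    exact this
  refine ⟨hA, ?_⟩
  obtain ⟨b, hb⟩ : U.Nonempty := by
    rw [nonempty_iff_ne_empty]
    rintro rfl
    exact hV.empty hVU
  have h2 := hV.p1 (U.erase b) b ((erase_subset _ _).trans hU) (hU hb) (hmin _ (erase_ssubset hb))
    (by rw [insert_erase hb]; exact hVU)
  rw [insert_erase hb] at h2
  rw [h2, hA (U.erase b) (erase_subset _ _) (erase_ssubset hb).ne, card_erase_of_mem hb]
  have : 0 < U.card := card_pos.2 ⟨b, hb⟩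
  omega

theorem no_cap {V : Finset α → Prop} (hV : PivotFam A n V) (W : Finset α) (hW : W ⊆ A)
    (hnW : n W = W.card - 2) (U : Finset α) (hUW : U ⊆ W) (hVU : V U)
    (hmin : ∀ T, T ⊂ U → ¬ V T) (c : α) (hcU : c ∈ U) (hVc : V (W.erase c)) : False := by
  obtain ⟨U', hU'W, hVU', hmin'⟩ := exists_min_sub V (W.erase c) hVc
  have hU'W' : U' ⊆ W := hU'W.trans (erase_subset _ _)
  obtain ⟨h1a, h1b⟩ := min_circuit h0 h1 hsub hV U (hUW.trans hW) hVU hmin
  obtain ⟨_, h2b⟩ := min_circuit h0 h1 hsub hV U' (hU'W'.trans hW) hVU' hmin'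
  have hc : c ∉ U ∩ U' := fun h => notMem_erase c W (hU'W (mem_inter.1 h).2)
  have hss : U ∩ U' ⊂ U := by
    refine ssubset_of_subset_of_ne inter_subset_left ?_
    intro e
    exact hc (by rw [e]; exact hcU)
  have hni := h1a (U ∩ U') hss.subset hss.ne
  have hle := hsub U U' (hUW.trans hW) (hU'W'.trans hW)
  have hne : n (U ∪ U') + n (U ∩ U') ≠ n U + n U' := by
    intro e
    exact hmin _ hss (hV.inter U U' (hUW.trans hW) (hU'W'.trans hW) e hVU hVU')
  have hlt := lt_of_le_of_ne hle hne
  have hcard : ((U ∪ U').card : ℤ) + (U ∩ U').card = U.card + U'.card := by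
    exact_mod_cast card_union_add_card_inter U U'
  have hg := grow_le h0 h1 hsub (U ∪ U') W (union_subset hUW hU'W') hW
  omega

/-- The good edge lemma. -/
theorem good_edge {V1 V2 : Finset α → Prop} (hV1 : PivotFam A n V1) (hV2 : PivotFam A n V2) :
    (∃ S a, S ⊆ A ∧ a ∈ A ∧ a ∉ S ∧ ¬ V1 S ∧ ¬ V2 S ∧ V1 (insert a S) ∧ V2 (insert a S)) ∨
    ∃ U V, U ⊆ A ∧ V ⊆ A ∧ Disjoint U V ∧ V1 U ∧ V2 V := by
  by_contra hcon
  rw [not_or] at hcon
  obtain ⟨hg, hd⟩ := hcon
  obtain ⟨W, hWA, ⟨hW1, hW2⟩, hWmin⟩ := exists_min_sub (fun T => V1 T ∧ V2 T) A ⟨hV1.top, hV2.top⟩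
  obtain ⟨U, hUW, hU, hUmin⟩ := exists_min_sub V1 W hW1
  obtain ⟨V, hVW, hV, hVmin⟩ := exists_min_sub V2 W hW2
  obtain ⟨hUa, hUb⟩ := min_circuit h0 h1 hsub hV1 U (hUW.trans hWA) hU hUmin
  obtain ⟨hVa, hVb⟩ := min_circuit h0 h1 hsub hV2 V (hVW.trans hWA) hV hVmin
  have hne : ∀ c ∈ W, V1 (W.erase c) ∨ V2 (W.erase c) := by
    intro c hc
    by_contra hn
    rw [not_or] at hn
    exact hg ⟨W.erase c, c, (erase_subset _ _).trans hWA, hWA hc, notMem_erase _ _, hn.1, hn.2,
      by rw [insert_erase hc]; exact hW1, by rw [insert_erase hc]; exact hW2⟩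
  have hUV : U ∪ V = W := by
    by_contra hn
    have hss : U ∪ V ⊂ W := ssubset_of_subset_of_ne (union_subset hUW hVW) hn
    exact hWmin _ hss ⟨hV1.up U _ subset_union_left (hss.subset.trans hWA) hU,
      hV2.up V _ subset_union_right (hss.subset.trans hWA) hV⟩
  have hUneV : U ≠ V := by
    rintro rfl
    rw [union_self] at hUV
    subst hUV
    obtain ⟨b, hb⟩ : U.Nonempty := by
      rw [nonempty_iff_ne_empty]
      rintro rfl
      exact hV1.empty hU
    rcases hne b hb with h | h
    · exact hUmin _ (erase_ssubset hb) h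
    · exact hVmin _ (erase_ssubset hb) h
  have hUW' : U ≠ W := by
    intro e
    have := hVa
    have h2 := hUa V (by rw [e]; exact hVW) (Ne.symm hUneV)
    omega
  -- the value of W
  obtain ⟨b, hbW, hbU⟩ : ∃ b, b ∈ W ∧ b ∉ U := by
    by_contra hn
    push Not at hn
    exact hUW' (Subset.antisymm hUW hn)
  have hdel : ∀ b ∈ W, b ∉ U → ¬ V2 (W.erase b) := by
    intro b hb hbU h2
    have h1' : V1 (W.erase b) := hV1.up U _
      (fun z hz => mem_erase.2 ⟨fun e => hbU (e ▸ hz), hUW hz⟩)
      ((erase_subset _ _).trans hWA) hU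
    exact hWmin _ (erase_ssubset hb) ⟨h1', h2⟩
  have hext := ext_circuit h0 h1 hsub hV2 U W hWA hW2 hdel (W.erase b)
    (fun z hz => mem_erase.2 ⟨fun e => hbU (e ▸ hz), hUW hz⟩) (erase_subset _ _)
    (erase_ssubset hbW).ne
  have hp := hV2.p1 (W.erase b) b ((erase_subset _ _).trans hWA) (hWA hbW) (hdel b hbW hbU)
    (by rw [insert_erase hbW]; exact hW2)
  rw [insert_erase hbW] at hp
  have hc : ((W.erase b).card : ℤ) = W.card - 1 := by
    rw [card_erase_of_mem hbW]
    have : 0 < W.card := card_pos.2 ⟨b, hbW⟩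
    omega
  have hnW : n W = W.card - 2 := by omega
  apply hd
  refine ⟨U, V, hUW.trans hWA, hVW.trans hWA, ?_, hU, hV⟩
  rw [disjoint_left]
  intro c hcU hcV
  rcases hne c (hUW hcU) with h | h
  · exact no_cap h0 h1 hsub hV1 W hWA hnW U hUW hU hUmin c hcU h
  · exact no_cap h0 h1 hsub hV2 W hWA hnW V hVW hV hVmin c hcV h

end

end Pool.Agent.P901b45k
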