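import Pool.Agent.Lib.P901b45k.Cut

/-!
The cut theorem for Frank's question on complementary vertices of integer 2-polymatroids
(MP_901b45_co): the main argument.
-/

set_option autoImplicit false

namespace Pool.Agent.P901b45k

open Finset Pool.Agent.P901b45e Pool.Agent.P901b45d

variable {α : Type*} [DecidableEq α] {G : Finset α} {h : Finset α → ℤ} {x : α → ℤ}

/-- one exchange -/
theorem move1 (hneg : ∀ D ⊆ G, -∑ e ∈ D, x e ≤ h D) {p q : α}
    (hpq : ∀ D ⊆ G, -∑ e ∈ D, x e = h D → p ∈ D → q ∈ D) :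
    ∀ D ⊆ G, -∑ e ∈ D, (x e + root q p e) ≤ h D := by
  intro D hD
  rw [sum_add_distrib, sum_root]
  have h1 := hneg D hD
  by_cases hp : p ∈ D
  · by_cases hq : q ∈ D
    · rw [if_pos hp, if_pos hq]; omega
    · have h2 : -∑ e ∈ D, x e ≠ h D := fun h3 => hq (hpq D hD h3 hp)
      rw [if_pos hp, if_neg hq]; omega
  · rw [if_neg hp]
    split_ifs <;> omega

/-- two exchanges -/
theorem move2 (hh : Sub G h) (hneg : ∀ D ⊆ G, -∑ e ∈ D, x e ≤ h D) {p q i j : α}
    (hpq : ∀ D ⊆ G, -∑ e ∈ D, x e = h D → p ∈ D → q ∈ D)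
    (hji : ∀ D ⊆ G, -∑ e ∈ D, x e = h D → j ∈ D → i ∈ D) {T : Finset α} (hT : T ⊆ G)
    (hTt : -∑ e ∈ T, x e = h T) (hw : (p ∈ T ∧ i ∉ T) ∨ (j ∈ T ∧ q ∉ T)) :
    ∀ D ⊆ G, -∑ e ∈ D, (x e + root q p e + root i j e) ≤ h D := by
  intro D hD
  rw [sum_add_distrib, sum_add_distrib, sum_root, sum_root]
  have h1 := hneg D hD
  by_cases hp : p ∈ D ∧ q ∉ D
  · have h2 : -∑ e ∈ D, x e ≠ h D := fun h3 => hp.2 (hpq D hD h3 hp.1)
    by_cases hj : j ∈ D ∧ i ∉ D
    · rw [if_pos hp.1, if_neg hp.2, if_pos hj.1, if_neg hj.2]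
      have h4 := slack (x := x) hh hD hT
      have h5 := hneg (D ∪ T) (union_subset hD hT)
      have h6 := hneg (D ∩ T) (inter_subset_left.trans hD)
      have h7 : -∑ e ∈ D ∪ T, x e ≠ h (D ∪ T) ∧ -∑ e ∈ D ∩ T, x e ≠ h (D ∩ T) := by
        rcases hw with hw | hw
        · constructor
          · intro h8
            have h9 := hji _ (union_subset hD hT) h8 (mem_union_left _ hj.1)
            rcases mem_union.1 h9 with h9 | h9
            · exact hj.2 h9
            · exact hw.2 h9
          · intro h8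
            exact hp.2 (mem_inter.1 (hpq _ (inter_subset_left.trans hD) h8
              (mem_inter.2 ⟨hp.1, hw.1⟩))).1
        · constructor
          · intro h8
            have h9 := hpq _ (union_subset hD hT) h8 (mem_union_left _ hp.1)
            rcases mem_union.1 h9 with h9 | h9
            · exact hp.2 h9
            · exact hw.2 h9
          · intro h8
            exact hj.2 (mem_inter.1 (hji _ (inter_subset_left.trans hD) h8
              (mem_inter.2 ⟨hj.1, hw.1⟩))).1
      have h8 := h7.1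
      have h9 := h7.2
      omega
    · rw [if_pos hp.1, if_neg hp.2]
      by_cases hj1 : j ∈ D
      · have hi1 : i ∈ D := by
          by_contra h3
          exact hj ⟨hj1, h3⟩
        rw [if_pos hj1, if_pos hi1]; omega
      · rw [if_neg hj1]
        split_ifs <;> omega
  · have hpq' : (if q ∈ D then (1 : ℤ) else 0) - (if p ∈ D then (1 : ℤ) else 0) ≥ 0 := by
      by_cases hp1 : p ∈ D
      · have hq1 : q ∈ D := by
          by_contra h3
          exact hp ⟨hp1, h3⟩
        rw [if_pos hp1, if_pos hq1]; norm_num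
      · rw [if_neg hp1]
        split_ifs <;> norm_num
    by_cases hj : j ∈ D ∧ i ∉ D
    · have h2 : -∑ e ∈ D, x e ≠ h D := fun h3 => hj.2 (hji D hD h3 hj.1)
      rw [if_pos hj.1, if_neg hj.2]
      omega
    · have hji' : (if i ∈ D then (1 : ℤ) else 0) - (if j ∈ D then (1 : ℤ) else 0) ≥ 0 := by
        by_cases hj1 : j ∈ D
        · have hi1 : i ∈ D := by
            by_contra h3
            exact hj ⟨hj1, h3⟩
          rw [if_pos hj1, if_pos hi1]; norm_num
        · rw [if_neg hj1]
          split_ifs <;> norm_num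
      omega

/-- points of `-B(h)` on the hyperplane `x(A) = c` -/
def Pt (G : Finset α) (h : Finset α → ℤ) (A : Finset α) (c : ℤ) (x : α → ℤ) : Prop :=
  (∀ D ⊆ G, -∑ e ∈ D, x e ≤ h D) ∧ ∑ e ∈ G, x e = 0 ∧ ∑ e ∈ A, x e = c

theorem exists_pt (hh : Sub G h) (hG : h G = 0) {A : Finset α} (hA : A ⊆ G) {c : ℤ}
    (hc : 0 ≤ c) (hl : c ≤ h (G \ A)) : ∃ x, Pt G h A c x := by
  classical
  let Q : (α → ℤ) → Prop := fun x => (∀ D ⊆ G, -∑ e ∈ D, x e ≤ h D) ∧ ∑ e ∈ G, x e = 0 ∧
    ∑ e ∈ A, x e ≤ c
  have hex : ∃ m : ℕ, ∃ x, Q x ∧ (c - ∑ e ∈ A, x e).toNat = m := by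
    refine ⟨_, fun _ => 0, ⟨?_, ?_, ?_⟩, rfl⟩
    · intro D hD; simpa using hh.nonneg D hD
    · simp
    · simpa using hc
  obtain ⟨x, ⟨hneg, htot, hxA⟩, hxm⟩ := Nat.find_spec hex
  refine ⟨x, hneg, htot, ?_⟩
  by_contra hne
  have hlt : ∑ e ∈ A, x e < c := lt_of_le_of_ne hxA hne
  have hblock : ∀ a ∈ A, ∀ b ∈ G \ A, ∃ D ⊆ G, -∑ e ∈ D, x e = h D ∧ b ∈ D ∧ a ∉ D := by
    intro a ha b hb
    by_contra hcon
    push Not at hcon
    have hb' := mem_sdiff.1 hb
    have hm := move1 hneg (p := b) (q := a) (fun D hD h1 h2 => hcon D hD h1 h2)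
    have hQ : Q (fun e => x e + root a b e) := by
      refine ⟨hm, ?_, ?_⟩
      · rw [sum_add_distrib, sum_root, if_pos (hA ha), if_pos hb'.1, htot]; norm_num
      · rw [sum_add_distrib, sum_root, if_pos ha, if_neg hb'.2]; omega
    have h2 := Nat.find_min' hex ⟨_, hQ, rfl⟩
    rw [← hxm] at h2
    have h3 : ∑ e ∈ A, (x e + root a b e) = ∑ e ∈ A, x e + 1 := by
      rw [sum_add_distrib, sum_root, if_pos ha, if_neg hb'.2]; norm_num
    rw [h3] at h2
    omega
  have hne2 : (G.powerset.filter (fun T => Disjoint T A ∧ -∑ e ∈ T, x e = h T)).Nonempty :=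
    ⟨∅, mem_filter.2 ⟨mem_powerset.2 (empty_subset _), disjoint_empty_left _, by
      rw [sum_empty, hh.empty, neg_zero]⟩⟩
  obtain ⟨T, hT, hmax⟩ := exists_max_image _ (fun T : Finset α => T.card) hne2
  obtain ⟨hT1, hT2, hT3⟩ := mem_filter.1 hT
  rw [mem_powerset] at hT1
  have hTe : T = G \ A := by
    apply Subset.antisymm
    · intro e he
      exact mem_sdiff.2 ⟨hT1 he, fun h4 => (disjoint_left.1 hT2) he h4⟩
    · intro b hb
      obtain ⟨S, hS, hbS, hSt, hSm⟩ := exists_least hh hG hneg htot (mem_sdiff.1 hb).1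
      have hd : Disjoint S A := by
        rw [disjoint_left]
        intro a haS haA
        obtain ⟨D, hD, h4, h5, h6⟩ := hblock a haA b hb
        exact h6 (hSm D hD h5 h4 haS)
      have h4 := (lat hh hneg hT1 hS hT3 hSt).1
      have h5 := hmax (T ∪ S) (mem_filter.2 ⟨mem_powerset.2 (union_subset hT1 hS),
        disjoint_union_left.2 ⟨hT2, hd⟩, h4⟩)
      have h6 : T = T ∪ S := eq_of_subset_of_card_le subset_union_left h5
      rw [h6]
      exact mem_union_right _ hbS
  rw [hTe] at hT3
  have h4 := Finset.sum_sdiff hA (f := x)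
  omega

theorem exists_min_pt {A : Finset α} {c : ℤ} (hex : ∃ x, Pt G h A c x) :
    ∃ x, Pt G h A c x ∧ ∀ y, Pt G h A c y → zeros G x ≤ zeros G y := by
  classical
  obtain ⟨x0, hx0⟩ := hex
  have hex' : ∃ m : ℕ, ∃ x, Pt G h A c x ∧ zeros G x = m := ⟨_, x0, hx0, rfl⟩
  obtain ⟨x, hx, hxm⟩ := Nat.find_spec hex'
  refine ⟨x, hx, fun y hy => ?_⟩
  rw [hxm]
  exact Nat.find_min' hex' ⟨y, hy, rfl⟩

theorem root_self {a b : α} (hab : a ≠ b) : root a b a = 1 := by
  unfold root
  rw [if_pos rfl, if_neg hab]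
  norm_num

theorem root_self' {a b : α} (hab : a ≠ b) : root a b b = -1 := by
  unfold root
  rw [if_neg hab.symm, if_pos rfl]
  norm_num

theorem root_ne {a b e : α} (ha : e ≠ a) (hb : e ≠ b) : root a b e = 0 := by
  unfold root
  rw [if_neg ha, if_neg hb]
  norm_num

/-- a single exchange between two zeros lowers the number of zeros -/
theorem zeros_one {p q : α} (hp : p ∈ G) (hq : q ∈ G) (hpq : p ≠ q) (h1 : x p = 0)
    (h2 : x q = 0) : zeros G (fun e => x e + root q p e) < zeros G x := by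
  refine zeros_lt (Z := {p, q}) ?_ ∅ ?_ ?_ ?_
  · intro e he
    rcases mem_insert.1 he with rfl | he
    · exact hp
    · rw [mem_singleton.1 he]; exact hq
  · intro e _ he he2
    right
    have h3 : e ≠ p := fun h => he (by rw [h]; simp)
    have h4 : e ≠ q := fun h => he (by rw [h]; simp)
    rw [root_ne h4 h3] at he2
    linarith
  · intro e he
    rcases mem_insert.1 he with rfl | he
    · refine ⟨h1, ?_⟩
      show x e + root q e e ≠ 0
      rw [root_self' hpq.symm, h1]; norm_num
    · rw [mem_singleton.1 he]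
      refine ⟨h2, ?_⟩
      show x q + root q p q ≠ 0
      rw [root_self hpq.symm, h2]; norm_num
  · rw [card_pair hpq]; simp

/-- a double exchange -/
theorem zeros_two {p q i j : α} (c : α) (hcm : c = p ∨ c = q) (o : α) (hom : o = p ∨ o = q)
    (hco : c ≠ o) (hp : p ∈ G) (hq : q ∈ G) (hi : i ∈ G) (hj : j ∈ G)
    (hpq : p ≠ q) (hpi : p ≠ i) (hpj : p ≠ j) (hqi : q ≠ i) (hqj : q ≠ j) (hij : i ≠ j)
    (hc0 : x c = 0) (hi0 : x i = 0) (hj0 : x j = 0) :
    zeros G (fun e => x e + root q p e + root i j e) < zeros G x := by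
  have hci : c ≠ i := by rcases hcm with rfl | rfl <;> assumption
  have hcj : c ≠ j := by rcases hcm with rfl | rfl <;> assumption
  have hcG : c ∈ G := by rcases hcm with rfl | rfl <;> assumption
  refine zeros_lt (Z := {c, i, j}) ?_ {o} ?_ ?_ ?_
  · intro e he
    rw [mem_insert, mem_insert, mem_singleton] at he
    rcases he with rfl | rfl | rfl <;> assumption
  · intro e _ he he2
    rw [mem_insert, mem_insert, mem_singleton, not_or, not_or] at he
    by_cases heo : e = o
    · left; rw [heo]; exact mem_singleton_self o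
    · right
      have h3 : e ≠ p := by
        intro h
        rcases hcm with h5 | h5
        · exact he.1 (h.trans h5.symm)
        · rcases hom with h6 | h6
          · exact heo (h.trans h6.symm)
          · exact hco (h5.trans h6.symm)
      have h4 : e ≠ q := by
        intro h
        rcases hcm with h5 | h5
        · rcases hom with h6 | h6
          · exact hco (h5.trans h6.symm)
          · exact heo (h.trans h6.symm)
        · exact he.1 (h.trans h5.symm)
      rw [root_ne h4 h3, root_ne he.2.1 he.2.2] at he2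
      linarith
  · intro e he
    rw [mem_insert, mem_insert, mem_singleton] at he
    rcases he with rfl | rfl | rfl
    · refine ⟨hc0, ?_⟩
      show x e + root q p e + root i j e ≠ 0
      rw [root_ne hci hcj, hc0]
      rcases hcm with rfl | rfl
      · rw [root_self' hpq.symm]; norm_num
      · rw [root_self hpq.symm]; norm_num
    · refine ⟨hi0, ?_⟩
      show x e + root q p e + root e j e ≠ 0
      rw [root_ne hqi.symm hpi.symm, root_self hij, hi0]; norm_num
    · refine ⟨hj0, ?_⟩
      show x e + root q p e + root i e e ≠ 0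
      rw [root_ne hqj.symm hpj.symm, root_self' hij, hj0]; norm_num
  · rw [card_singleton, card_insert_of_notMem (by
      rw [mem_insert, mem_singleton, not_or]; exact ⟨hci, hcj⟩), card_pair hij]
    norm_num

end Pool.Agent.P901b45k
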