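import Pool.Agent.Lib.P901b45k.Main

/-!
The slice theorem for Frank's question on complementary vertices of integer 2-polymatroids
(MP_901b45_co).
-/

set_option autoImplicit false

namespace Pool.Agent.P901b45k

open Finset Pool.Agent.P901b45e Pool.Agent.P901b45d

variable {α : Type*} [DecidableEq α] {G : Finset α} {h : Finset α → ℤ} {x : α → ℤ}

/-- the setting: a point of the slice with fewest zeros and a tie `i`, `j` across the slice -/
structure Top (G : Finset α) (h : Finset α → ℤ) (A : Finset α) (c : ℤ) (x : α → ℤ) (i j : α) :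
    Prop where
  pt : Pt G h A c x
  min : ∀ y, Pt G h A c y → zeros G x ≤ zeros G y
  i_mem : i ∈ G
  j_mem : j ∈ G
  ne : i ≠ j
  i_zero : x i = 0
  j_zero : x j = 0
  iA : i ∈ A
  jA : j ∉ A
  tie : ∀ X ⊆ G, -∑ e ∈ X, x e = h X → (i ∈ X ↔ j ∈ X)

/-- zeros on the same side of the slice are separated -/
theorem one_sep {A : Finset α} {c : ℤ} (hA : A ⊆ G) (hpt : Pt G h A c x)
    (hmin : ∀ y, Pt G h A c y → zeros G x ≤ zeros G y) {p q : α} (hp : p ∈ G) (hq : q ∈ G)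
    (hpq : p ≠ q) (hp0 : x p = 0) (hq0 : x q = 0) (hs : p ∈ A ↔ q ∈ A) :
    ∃ D ⊆ G, -∑ e ∈ D, x e = h D ∧ p ∈ D ∧ q ∉ D := by
  by_contra hcon
  push Not at hcon
  obtain ⟨hneg, htot, hxA⟩ := hpt
  have hm := move1 hneg (p := p) (q := q) (fun D hD h1 h2 => hcon D hD h1 h2)
  have hQ : Pt G h A c (fun e => x e + root q p e) := by
    refine ⟨hm, ?_, ?_⟩
    · rw [sum_add_distrib, sum_root, if_pos hq, if_pos hp, htot]; norm_num
    · rw [sum_add_distrib, sum_root, hxA]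
      by_cases h1 : p ∈ A
      · rw [if_pos (hs.1 h1), if_pos h1]; norm_num
      · rw [if_neg (fun h2 => h1 (hs.2 h2)), if_neg h1]; norm_num
  have h1 := hmin _ hQ
  have h2 := zeros_one (x := x) hp hq hpq hp0 hq0
  omega

theorem Top.keyA (hh : Sub G h) (hG : h G = 0) {A : Finset α} {c : ℤ} (hc : Cut G h A c) {i j : α}
    (ht : Top G h A c x i j) {b : α} (hbA : b ∈ A) (hb0 : x b = 0) (hbi : b ≠ i) :
    ∃ X ⊆ G, ∑ e ∈ X, x e = h X ∧ b ∉ X ∧ ∀ e ∈ G, x e = 0 → e ≠ b → e ∈ X := by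
  obtain ⟨hneg, htot, hxA⟩ := ht.pt
  have hv := hc.mem hh hneg htot hxA
  have hbG := hc.sub hbA
  obtain ⟨T, hT, hbT, hTt, hTm⟩ := exists_least hh hG hneg htot hbG
  have hzero : ∀ o ∈ T, o ≠ b → x o = 0 → o ∉ A := by
    intro o ho hob ho0 hoA
    obtain ⟨D, hD, h1, h2, h3⟩ := one_sep hc.sub ht.pt ht.min hbG (hT ho) hob.symm hb0 ho0
      ⟨fun _ => hoA, fun _ => hbA⟩
    exact h3 (hTm D hD h2 h1 ho)
  have hiT : i ∉ T := fun h1 => hzero i h1 hbi.symm ht.i_zero ht.iA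
  have hjT : j ∉ T := fun h1 => hiT ((ht.tie T hT hTt).2 h1)
  have hTo : ∀ o ∈ T, o ≠ b → x o = -1 ∧ o ∈ A := by
    intro o ho hob
    have hoG := hT ho
    have h1 : x o ≠ 1 := by
      intro h1
      have h2 := Finset.add_sum_erase G x hoG
      have h3 := hneg (G.erase o) (erase_subset _ _)
      have h4 := hh.down (G.erase o) (erase_subset _ _) o hoG
      rw [insert_erase hoG, hG] at h4
      have h5 : -∑ e ∈ G.erase o, x e = h (G.erase o) := by omega
      exact (mem_erase.1 (hTm _ (erase_subset _ _) (mem_erase.2 ⟨hob.symm, hbG⟩) h5 ho)).1 rfl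
    have hoA : o ∈ A := by
      by_contra hoA
      have hoj : o ≠ j := fun h2 => hjT (h2 ▸ ho)
      have hoi : o ≠ i := fun h2 => hoA (h2 ▸ ht.iA)
      have hbj : b ≠ j := fun h2 => ht.jA (h2 ▸ hbA)
      have hm := move2 hh hneg (p := b) (q := o) (i := i) (j := j)
        (fun D hD h2 h3 => hTm D hD h3 h2 ho) (fun D hD h2 h3 => (ht.tie D hD h2).2 h3) hT hTt
        (Or.inl ⟨hbT, hiT⟩)
      have hQ : Pt G h A c (fun e => x e + root o b e + root i j e) := by
        refine ⟨hm, ?_, ?_⟩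
        · rw [sum_add_distrib, sum_add_distrib, sum_root, sum_root, if_pos hoG, if_pos hbG,
            if_pos ht.i_mem, if_pos ht.j_mem, htot]
          norm_num
        · rw [sum_add_distrib, sum_add_distrib, sum_root, sum_root, if_neg hoA, if_pos hbA,
            if_pos ht.iA, if_neg ht.jA, hxA]
          ring
      have h2 := ht.min _ hQ
      have h3 := zeros_two (x := x) (p := b) (q := o) (i := i) (j := j) b (Or.inl rfl) o
        (Or.inr rfl) hob.symm hbG hoG ht.i_mem ht.j_mem hob.symm hbi hbj hoi hoj ht.ne hb0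
        ht.i_zero ht.j_zero
      omega
    refine ⟨?_, hoA⟩
    rcases hv.val o hoG with h2 | h2 | h2
    · exact absurd h2 h1
    · exact h2
    · exact absurd hoA (hzero o ho hob h2)
  have hTA : T ⊆ A := by
    intro o ho
    by_cases hob : o = b
    · rw [hob]; exact hbA
    · exact (hTo o ho hob).2
  have h1 := hc.all T hT
  have e1 : T ∩ A = T := inter_eq_left.2 hTA
  have e2 : T ∪ A = A := union_eq_right.2 hTA
  have e3 : T \ A = ∅ := sdiff_eq_empty_iff_subset.2 hTA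
  rw [e1, e2, e3, sdiff_empty, hG] at h1
  have h2 := hc.le
  have h3 := hc.pos
  have h4 := hv.le (A \ T) (sdiff_subset.trans hc.sub)
  have h5 := Finset.sum_sdiff hTA (f := x)
  have h6 := Finset.sum_sdiff hT (f := x)
  have h7 := hv.le (G \ T) sdiff_subset
  have h8 : h (G \ T) ≤ h T := by
    rcases min_le_iff.1 h1 with h9 | h9
    · exact h9
    · rcases min_le_iff.1 h9 with h9 | h9 <;> linarith
  refine ⟨G \ T, sdiff_subset, by linarith, fun h9 => (mem_sdiff.1 h9).2 hbT, ?_⟩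
  intro e he he0 heb
  refine mem_sdiff.2 ⟨he, fun h9 => ?_⟩
  have := (hTo e h9 heb).1
  omega

theorem Top.keyB (hh : Sub G h) (hG : h G = 0) {A : Finset α} {c : ℤ} (hc : Cut G h A c) {i j : α}
    (ht : Top G h A c x i j) {b : α} (hbG : b ∈ G) (hbA : b ∉ A) (hb0 : x b = 0) (hbj : b ≠ j) :
    ∃ X ⊆ G, ∑ e ∈ X, x e = h X ∧ b ∈ X ∧ ∀ e ∈ G, x e = 0 → e ≠ b → e ∉ X := by
  obtain ⟨hneg, htot, hxA⟩ := ht.pt
  have hv := hc.mem hh hneg htot hxA
  obtain ⟨X, hX, hbX, hXt, hXm⟩ := exists_greatest (x := x) hh hneg b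
  have hzero : ∀ o ∈ G, o ∉ X → o ≠ b → x o = 0 → o ∈ A := by
    intro o hoG ho hob ho0
    by_contra hoA
    obtain ⟨D, hD, h1, h2, h3⟩ := one_sep hc.sub ht.pt ht.min hoG hbG hob ho0 hb0
      ⟨fun h4 => absurd h4 hoA, fun h4 => absurd h4 hbA⟩
    exact ho (hXm D hD h3 h1 h2)
  have hjX : j ∈ X := by
    by_contra h1
    exact ht.jA (hzero j ht.j_mem h1 hbj.symm ht.j_zero)
  have hiX : i ∈ X := (ht.tie X hX hXt).2 hjX
  have hTo : ∀ o ∈ G, o ∉ X → o ≠ b → x o = 1 ∧ o ∉ A := by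
    intro o hoG ho hob
    have h1 : x o ≠ -1 := by
      intro h1
      have h3 := hneg {o} (singleton_subset_iff.2 hoG)
      have h4 := hh.up ∅ (empty_subset _) o hoG
      rw [hh.empty] at h4
      have h5 : h {o} ≤ 1 := by simpa using h4
      rw [sum_singleton] at h3
      have h6 : -∑ e ∈ ({o} : Finset α), x e = h {o} := by rw [sum_singleton]; omega
      exact ho (hXm {o} (singleton_subset_iff.2 hoG) (fun h7 => hob (mem_singleton.1 h7).symm) h6
        (mem_singleton_self o))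
    have hoA : o ∉ A := by
      intro hoA
      have hoj : o ≠ j := fun h2 => ho (h2 ▸ hjX)
      have hoi : o ≠ i := fun h2 => ho (h2 ▸ hiX)
      have hbi : b ≠ i := fun h2 => hbA (h2 ▸ ht.iA)
      have hm := move2 hh hneg (p := o) (q := b) (i := i) (j := j)
        (fun D hD h2 h3 => by
          by_contra h4
          exact ho (hXm D hD h4 h2 h3))
        (fun D hD h2 h3 => (ht.tie D hD h2).2 h3) hX hXt (Or.inr ⟨hjX, hbX⟩)
      have hQ : Pt G h A c (fun e => x e + root b o e + root i j e) := by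
        refine ⟨hm, ?_, ?_⟩
        · rw [sum_add_distrib, sum_add_distrib, sum_root, sum_root, if_pos hoG, if_pos hbG,
            if_pos ht.i_mem, if_pos ht.j_mem, htot]
          norm_num
        · rw [sum_add_distrib, sum_add_distrib, sum_root, sum_root, if_pos hoA, if_neg hbA,
            if_pos ht.iA, if_neg ht.jA, hxA]
          ring
      have h2 := ht.min _ hQ
      have h3 := zeros_two (x := x) (p := o) (q := b) (i := i) (j := j) b (Or.inr rfl) o
        (Or.inl rfl) hob.symm hoG hbG ht.i_mem ht.j_mem hob hoi hoj hbi hbj ht.ne hb0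
        ht.i_zero ht.j_zero
      omega
    refine ⟨?_, hoA⟩
    rcases hv.val o hoG with h2 | h2 | h2
    · exact h2
    · exact absurd h2 h1
    · exact absurd (hzero o hoG ho hob h2) hoA
  have hAX : A ⊆ X := by
    intro o ho
    by_contra h1
    have hob : o ≠ b := fun h2 => hbA (h2 ▸ ho)
    exact (hTo o (hc.sub ho) h1 hob).2 ho
  have h1 := hc.all X hX
  have e1 : X ∩ A = A := inter_eq_right.2 hAX
  have e2 : X ∪ A = X := union_eq_left.2 hAX
  have e3 : A \ X = ∅ := sdiff_eq_empty_iff_subset.2 hAX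
  rw [e1, e2, e3, hh.empty] at h1
  have h2 := hc.le
  have h3 := hc.pos
  have h4 := hv.le (G \ (X \ A)) sdiff_subset
  have h5 := Finset.sum_sdiff hAX (f := x)
  have h6 := Finset.sum_sdiff hX (f := x)
  have h7 := hv.le (G \ X) sdiff_subset
  have h10 := Finset.sum_sdiff (sdiff_subset.trans hX : X \ A ⊆ G) (f := x)
  have h8 : h (G \ X) ≤ h X := by
    rcases min_le_iff.1 h1 with h9 | h9
    · exact h9
    · rcases min_le_iff.1 h9 with h9 | h9 <;> linarith
  refine ⟨G \ X, sdiff_subset, by linarith, mem_sdiff.2 ⟨hbG, hbX⟩, ?_⟩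
  intro e he he0 heb h9
  have := (hTo e he (mem_sdiff.1 h9).2 heb).1
  omega

/-- the slice theorem -/
theorem Cut.sol (hh : Sub G h) (hG : h G = 0) {A : Finset α} {c : ℤ} (hc : Cut G h A c) :
    ∃ x, Sol G h x := by
  obtain ⟨x, hpt, hmin⟩ := exists_min_pt (exists_pt hh hG hc.sub (by linarith [hc.pos]) hc.le)
  obtain ⟨hneg, htot, hxA⟩ := hpt
  have hv := hc.mem hh hneg htot hxA
  by_cases htie : ∃ i ∈ G, ∃ j ∈ G, i ≠ j ∧ x i = 0 ∧ x j = 0 ∧
    ∀ X ⊆ G, -∑ e ∈ X, x e = h X → (i ∈ X ↔ j ∈ X)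
  swap
  · push Not at htie
    refine ⟨fun e => -x e, sol_of hh hG hv.neg.le hv.neg.neg_le hv.neg.val ?_⟩
    intro i hi j hj hij hi0 hj0
    obtain ⟨X, hX, h1, h2⟩ := htie i hi j hj hij (by omega) (by omega)
    refine ⟨X, hX, by rw [sum_neg_distrib]; exact h1, ?_⟩
    rcases h2 with h2 | h2
    · exact Or.inl h2
    · exact Or.inr ⟨h2.2, h2.1⟩
  obtain ⟨i, j, ht⟩ : ∃ i j, Top G h A c x i j := by
    obtain ⟨i, hi, j, hj, hij, hi0, hj0, htie⟩ := htie
    by_cases hiA : i ∈ A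
    · by_cases hjA : j ∈ A
      · obtain ⟨D, hD, h1, h2, h3⟩ := one_sep hc.sub ⟨hneg, htot, hxA⟩ hmin hi hj hij hi0 hj0
          ⟨fun _ => hjA, fun _ => hiA⟩
        exact absurd ((htie D hD h1).1 h2) h3
      · exact ⟨i, j, ⟨hneg, htot, hxA⟩, hmin, hi, hj, hij, hi0, hj0, hiA, hjA, htie⟩
    · by_cases hjA : j ∈ A
      · exact ⟨j, i, ⟨hneg, htot, hxA⟩, hmin, hj, hi, hij.symm, hj0, hi0, hjA, hiA,
          fun X hX h1 => (htie X hX h1).symm⟩
      · obtain ⟨D, hD, h1, h2, h3⟩ := one_sep hc.sub ⟨hneg, htot, hxA⟩ hmin hi hj hij hi0 hj0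
          ⟨fun h4 => absurd h4 hiA, fun h4 => absurd h4 hjA⟩
        exact absurd ((htie D hD h1).1 h2) h3
  -- every zero except `i`, `j` is separated from the other zeros
  have hsep : ∀ e ∈ G, ∀ f ∈ G, e ≠ f → x e = 0 → x f = 0 → e ≠ i → e ≠ j →
      ∃ X ⊆ G, ∑ e ∈ X, x e = h X ∧ (i ∈ X ↔ j ∈ X) ∧
        ((e ∈ X ∧ f ∉ X) ∨ (f ∈ X ∧ e ∉ X)) := by
    intro e he f hf hef he0 hf0 hei hej
    by_cases heA : e ∈ A
    · obtain ⟨X, hX, h1, h2, h3⟩ := ht.keyA hh hG hc heA he0 hei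
      exact ⟨X, hX, h1, ⟨fun _ => h3 j ht.j_mem ht.j_zero hej.symm,
        fun _ => h3 i ht.i_mem ht.i_zero hei.symm⟩, Or.inr ⟨h3 f hf hf0 hef.symm, h2⟩⟩
    · obtain ⟨X, hX, h1, h2, h3⟩ := ht.keyB hh hG hc he heA he0 hej
      exact ⟨X, hX, h1, ⟨fun h4 => absurd h4 (h3 i ht.i_mem ht.i_zero hei.symm),
        fun h4 => absurd h4 (h3 j ht.j_mem ht.j_zero hej.symm)⟩,
        Or.inl ⟨h2, h3 f hf hf0 hef.symm⟩⟩
  by_cases hl : ∃ X ⊆ G, ∑ e ∈ X, x e = h X ∧ i ∈ X ∧ j ∉ X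
  · refine ⟨x, sol_of hh hG hv.le hv.neg_le hv.val ?_⟩
    intro e he f hf hef he0 hf0
    obtain ⟨Y, hY, hY1, hY2, hY3⟩ := hl
    by_cases hei : e = i
    · by_cases hfj : f = j
      · exact ⟨Y, hY, hY1, Or.inl ⟨hei ▸ hY2, hfj ▸ hY3⟩⟩
      · have hfi : f ≠ i := fun h1 => hef (hei.trans h1.symm)
        obtain ⟨X, hX, h1, _, h3⟩ := hsep f hf e he hef.symm hf0 he0 hfi hfj
        exact ⟨X, hX, h1, h3.symm⟩
    · by_cases hej : e = j
      · by_cases hfi : f = i
        · exact ⟨Y, hY, hY1, Or.inr ⟨hfi ▸ hY2, hej ▸ hY3⟩⟩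
        · have hfj : f ≠ j := fun h1 => hef (hej.trans h1.symm)
          obtain ⟨X, hX, h1, _, h3⟩ := hsep f hf e he hef.symm hf0 he0 hfi hfj
          exact ⟨X, hX, h1, h3.symm⟩
      · obtain ⟨X, hX, h1, _, h3⟩ := hsep e he f hf hef he0 hf0 hei hej
        exact ⟨X, hX, h1, h3⟩
  · push Not at hl
    have hv' := hv.add ht.ne (Or.inl ht.i_zero) (Or.inl ht.j_zero) (fun X hX h1 h2 => hl X hX h1 h2)
      (fun X hX h1 h2 => (ht.tie X hX h1).2 h2)
    refine ⟨_, sol_of hh hG hv'.le hv'.neg_le hv'.val ?_⟩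
    intro e he f hf hef he0 hf0
    have hz : ∀ d, x d + root i j d = 0 → d ≠ i ∧ d ≠ j ∧ x d = 0 := by
      intro d hd
      have hdi : d ≠ i := by
        intro h1
        rw [h1, root_self ht.ne, ht.i_zero] at hd
        omega
      have hdj : d ≠ j := by
        intro h1
        rw [h1, root_self' ht.ne, ht.j_zero] at hd
        omega
      rw [root_ne hdi hdj] at hd
      exact ⟨hdi, hdj, by omega⟩
    obtain ⟨hei, hej, he0'⟩ := hz e he0
    obtain ⟨_, _, hf0'⟩ := hz f hf0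
    obtain ⟨X, hX, h1, h2, h3⟩ := hsep e he f hf hef he0' hf0' hei hej
    refine ⟨X, hX, ?_, h3⟩
    rw [sum_add_distrib, sum_root, h1]
    by_cases h4 : i ∈ X
    · rw [if_pos h4, if_pos (h2.1 h4)]; ring
    · rw [if_neg h4, if_neg (fun h5 => h4 (h2.2 h5))]; ring

end Pool.Agent.P901b45k
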